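import Mathlib

set_option autoImplicit false

namespace Pool.Agent.H184Z.Mader

/-- A walk that starts in `Z` and ends outside `Z` has an edge leaving `Z`. -/
lemma cross {V E : Type} (tail head : E → V) (Z : V → Prop) :
    ∀ (P : List E), P ≠ [] → (∀ e ∈ P.head?, Z (tail e)) → (∀ e ∈ P.getLast?, ¬ Z (head e)) →
      (∀ (k : ℕ) (a b : E), P[k]? = some a → P[k+1]? = some b → head a = tail b) →
      ∃ e ∈ P, Z (tail e) ∧ ¬ Z (head e)
  | [], h, _, _, _ => absurd rfl h
  | [a], _, h1, h2, _ => ⟨a, by simp, h1 a (by simp), h2 a (by simp)⟩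
  | a :: b :: l, _, h1, h2, h3 => by
    by_cases ha : Z (head a)
    · have hab : head a = tail b := h3 0 a b (by simp) (by simp)
      obtain ⟨e, he, h⟩ := cross tail head Z (b :: l) (by simp)
        (by intro e he; simp at he; subst he; rw [← hab]; exact ha)
        (by intro e he; apply h2 e; simpa [List.getLast?_cons_cons] using he)
        (by intro k c d hc hd; exact h3 (k+1) c d (by simpa using hc) (by simpa using hd))
      exact ⟨e, List.mem_cons_of_mem _ he, h⟩
    · exact ⟨a, by simp, h1 a (by simp), ha⟩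

def tl : Fin 30 → Fin 5 :=
  ![0,0,0,0,0,0, 1,1,1,1,1,1, 2,2,2,2,2,2, 3,3,3,3,3,3, 4,4,4,4,4,4]

def hd : Fin 30 → Fin 5 :=
  ![1,1,1,1,1,4, 0,0,4,4,4,4, 3,3,4,4,4,4, 2,2,2,2,2,4, 0,0,0,3,3,3]

/-- the cut separating `x` from `y` -/
def cut (x y v : Fin 5) : Bool :=
  if y = 4 then (if x.val < 2 then v.val < 2 else (v = 2 || v = 3)) else v ≠ y

lemma cut_spec : ∀ x y : Fin 5, x ≠ y → cut x y x = true ∧ cut x y y = false ∧
    (Finset.univ.filter fun e : Fin 30 => cut x y (tl e) = true ∧ ¬ cut x y (hd e) = true).card ≤ 5 := by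
  decide

lemma loopless : ∀ e, tl e ≠ hd e := by decide

lemma outdeg : ∀ v : Fin 5, 6 ≤ Nat.card {e : Fin 30 // tl e = v} := by
  intro v
  rw [Nat.card_eq_fintype_card, Fintype.card_subtype]
  revert v
  decide

theorem no_six (x y : Fin 5) (hxy : x ≠ y) (P : Fin 6 → List (Fin 30))
    (hP : ∀ i, P i ≠ [] ∧ (∀ e ∈ (P i).head?, tl e = x) ∧ (∀ e ∈ (P i).getLast?, hd e = y) ∧
      ∀ (k : ℕ) (a b : Fin 30), (P i)[k]? = some a → (P i)[k+1]? = some b → hd a = tl b)
    (hd' : ∀ i j, i ≠ j → ∀ e ∈ P i, e ∉ P j) : False := by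
  obtain ⟨h1, h2, h3⟩ := cut_spec x y hxy
  have key : ∀ i, ∃ e ∈ P i, cut x y (tl e) = true ∧ ¬ cut x y (hd e) = true := fun i =>
    cross tl hd (fun v => cut x y v = true) (P i) (hP i).1
      (fun e he => by rw [(hP i).2.1 e he]; exact h1)
      (fun e he => by rw [(hP i).2.2.1 e he, h2]; simp) (hP i).2.2.2
  choose f hf1 hf2 using key
  have hinj : Function.Injective f := by
    intro i j hij
    by_contra hne
    exact hd' i j hne (f i) (hf1 i) (hij ▸ hf1 j)
  have := Finset.card_le_card_of_injOn f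
    (s := Finset.univ) (t := Finset.univ.filter fun e : Fin 30 =>
      cut x y (tl e) = true ∧ ¬ cut x y (hd e) = true)
    (fun i _ => by simpa using hf2 i) hinj.injOn
  simp only [Finset.card_univ, Fintype.card_fin] at this
  omega

end Pool.Agent.H184Z.Mader
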